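import Mathlib
import Pool.Agent.H.MP_5885b3_lc.A

set_option autoImplicit false

namespace Pool.Agent.Results.MP_5885b3_lc.NoAxiomNoFRP

open Function FirstOrder Language Filter Pool.Agent.H.MP_5885b3_lc

/-- The two binary operation symbols. -/
inductive Op : ℕ → Type
  | imp : Op 2
  | comp : Op 2

/-- The first-order language with the two binary operations and no relation symbol. -/
def L : Language := ⟨Op, fun _ => Empty⟩

/-- `h` is an isomorphism of `M` onto an algebra of weakening relations on `X`. -/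
def IsRep (M : Type) [L.Structure M] (X : Type) [Preorder X] (h : M → Set (X × X)) : Prop :=
  Injective h ∧ (∀ a x x' y y', x' ≤ x → y ≤ y' → (x, y) ∈ h a → (x', y') ∈ h a) ∧
    (∀ a b, h (Structure.funMap (L := L) Op.imp ![a, b]) =
      {p | ∀ x' y', x' ≤ p.1 → p.2 ≤ y' → (x', y') ∈ h a → (x', y') ∈ h b}) ∧
    ∀ a b, h (Structure.funMap (L := L) Op.comp ![a, b]) =
      {p | ∃ y, (p.1, y) ∈ h a ∧ (y, p.2) ∈ h b}

/-- Representable weakening implication semigroups. -/
def RWIS (M : Type) [L.Structure M] : Prop :=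
  ∃ (X : Type) (_ : PartialOrder X) (h : M → Set (X × X)), IsRep M X h

theorem of_pre {M : Type} [L.Structure M] {X : Type} [Preorder X] {h : M → Set (X × X)}
    (H : IsRep M X h) : RWIS M := by
  obtain ⟨h0, h1, h2, h3⟩ := H
  let o := ofAntisymmetrization (α := X) (· ≤ ·)
  let t := toAntisymmetrization (α := X) (· ≤ ·)
  have e : ∀ x, o (t x) ≤ x ∧ x ≤ o (t x) := fun x =>
    Quotient.exact (toAntisymmetrization_ofAntisymmetrization (· ≤ ·) (t x))
  have le : ∀ {u v}, o u ≤ o v ↔ u ≤ v := ofAntisymmetrization_le_ofAntisymmetrization_iff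
  have k : ∀ a x y, (o (t x), o (t y)) ∈ h a ↔ (x, y) ∈ h a := fun a x y =>
    ⟨h1 _ _ _ _ _ (e x).2 (e y).1, h1 _ _ _ _ _ (e x).1 (e y).2⟩
  refine ⟨Antisymmetrization X (· ≤ ·), inferInstance, fun a => {p | (o p.1, o p.2) ∈ h a},
    fun a b c => h0 (Set.ext fun p => ?_), fun a x x' y y' c d => h1 _ _ _ _ _ (le.2 c) (le.2 d),
    fun a b => Set.ext fun p => ?_, fun a b => Set.ext fun p => ?_⟩
  · exact (k a p.1 p.2).symm.trans ((Set.ext_iff.1 c (t p.1, t p.2)).trans (k b p.1 p.2))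
  · simp only [h2, Set.mem_setOf_eq]
    exact ⟨fun c x y d f => c _ _ (le.2 d) (le.2 f), fun c x y d f g => (k ..).1
      (c (t x) (t y) (le.1 ((e x).1.trans d)) (le.1 (f.trans (e y).2)) ((k ..).2 g))⟩
  · simp only [h3, Set.mem_setOf_eq]
    exact ⟨fun ⟨y, c, d⟩ => ⟨t y, h1 _ _ _ _ _ le_rfl (e y).2 c, h1 _ _ _ _ _ (e y).1 le_rfl d⟩,
      fun ⟨y, c⟩ => ⟨o y, c⟩⟩

theorem ev_ex {ι : Type} {W : Filter ι} {X : ι → Type} [∀ i, Nonempty (X i)]
    {p : ∀ i, X i → Prop} (h : ∀ᶠ i in W, ∃ x, p i x) : ∃ x : ∀ i, X i, ∀ᶠ i in W, p i (x i) :=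
  ⟨fun i => Classical.epsilon (p i), h.mono fun _ h => Classical.epsilon_spec h⟩

theorem of_local {M : Type} [L.Structure M] {ι : Type} (W : Ultrafilter ι) (X : ι → Type)
    [∀ i, Preorder (X i)] [∀ i, Nonempty (X i)] (h : ∀ i, M → Set (X i × X i))
    (h0 : ∀ a b, a ≠ b → ∀ᶠ i in W, h i a ≠ h i b) (h1 : ∀ i a, Weak (h i a))
    (h2 : ∀ a b, ∀ᶠ i in W, h i (Structure.funMap (L := L) Op.imp ![a, b]) = wimp (h i a) (h i b))
    (h3 : ∀ a b, ∀ᶠ i in W,
      h i (Structure.funMap (L := L) Op.comp ![a, b]) = rcomp (h i a) (h i b)) : RWIS M := by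
  let Y := {_x : ∀ i, X i // True}
  let _ : Preorder Y :=
    { le x y := ∀ᶠ i in W, x.1 i ≤ y.1 i
      lt x y := (∀ᶠ i in W, x.1 i ≤ y.1 i) ∧ ¬ ∀ᶠ i in W, y.1 i ≤ x.1 i
      le_refl _ := .of_forall fun _ => le_rfl
      le_trans _ _ _ a b := (Eventually.and a b).mono fun _ c => c.1.trans c.2 }
  refine of_pre (X := Y) (h := fun a => {p | ∀ᶠ i in W, (p.1.1 i, p.2.1 i) ∈ h i a})
    ⟨fun a b c => ?_, fun a x x' y y' c d e => ?_, fun a b => Set.ext fun p => ?_,
      fun a b => Set.ext fun p => ?_⟩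
  · by_contra hn
    obtain ⟨x, hx⟩ := ev_ex (X := fun i => X i × X i) (p := fun i x => ¬ (x ∈ h i a ↔ x ∈ h i b))
      ((h0 a b hn).mono fun i d => not_forall.1 (mt Set.ext d))
    have := Set.ext_iff.1 c (⟨fun i => (x i).1, trivial⟩, ⟨fun i => (x i).2, trivial⟩)
    simp only [Set.mem_setOf_eq, Prod.mk.eta] at this
    by_cases d : ∀ᶠ i in W, x i ∈ h i a
    · obtain ⟨i, e⟩ := (hx.and (d.and (this.1 d))).exists
      tauto
    · obtain ⟨i, e⟩ := (hx.and ((Ultrafilter.eventually_not.2 d).and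
        (Ultrafilter.eventually_not.2 (mt this.2 d)))).exists
      tauto
  · exact (Eventually.and c (Eventually.and d e)).mono fun i f => h1 _ _ _ _ _ _ f.1 f.2.1 f.2.2
  · constructor
    · intro c x y d e f
      filter_upwards [h2 a b, c, d, e, f] with i g c d e f
      rw [g] at c
      exact c _ _ d e f
    · intro c
      by_contra hn
      obtain ⟨x, hx⟩ := ev_ex (X := fun i => X i × X i) (W := W) (p := fun i x =>
        x.1 ≤ p.1.1 i ∧ p.2.1 i ≤ x.2 ∧ x ∈ h i a ∧ x ∉ h i b) (by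
          filter_upwards [h2 a b, Ultrafilter.eventually_not.2 hn] with i d e
          simp only [d, wimp, Set.mem_setOf_eq, not_forall] at e
          obtain ⟨x, y, e1, e2, e3, e4⟩ := e
          exact ⟨(x, y), e1, e2, e3, e4⟩)
      have := c ⟨fun i => (x i).1, trivial⟩ ⟨fun i => (x i).2, trivial⟩
        (hx.mono fun _ d => d.1) (hx.mono fun _ d => d.2.1) (hx.mono fun _ d => d.2.2.1)
      obtain ⟨i, e⟩ := (hx.and this).exists
      exact e.1.2.2.2 e.2
  · constructor
    · intro c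
      obtain ⟨x, hx⟩ := ev_ex (W := W) (p := fun i x =>
        (p.1.1 i, x) ∈ h i a ∧ (x, p.2.1 i) ∈ h i b) (by
          filter_upwards [h3 a b, c] with i d e
          rwa [d] at e)
      exact ⟨⟨x, trivial⟩, hx.mono fun _ d => d.1, hx.mono fun _ d => d.2⟩
    · rintro ⟨y, c, d⟩
      filter_upwards [h3 a b, c, d] with i e c d
      rw [e]
      exact ⟨_, c, d⟩

noncomputable instance str (k : ℕ) (S : Set (Fin k)) : L.Structure (A k S) where
  funMap
    | .imp, x => (x 0).imp (x 1)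
    | .comp, x => (x 0).cmp (x 1)
  RelMap r := r.elim

instance (k : ℕ) (S : Set (Fin k)) : Nonempty (A k S) := ⟨cst .o nofun⟩

theorem ultra (U : Ultrafilter ℕ) (hU : ∀ n : ℕ, ∀ᶠ k in U, n ≤ k) :
    RWIS ((U : Filter ℕ).Product fun k => A (k + 1) Set.univ) := by
  classical
  let M := (U : Filter ℕ).Product fun k => A (k + 1) Set.univ
  let r : M → ∀ k, A (k + 1) Set.univ := Quotient.out
  have hr : ∀ a : M, ((r a : ∀ k, A (k + 1) Set.univ) : M) = a := Quotient.out_eq
  let j : Finset M → ∀ k, Fin (k + 1) := fun s k =>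
    Classical.epsilon fun j => ∀ a ∈ s, ¬ ∀ τ, (r a k).1 τ = .b j
  have hj : ∀ s : Finset M, ∀ k, s.card ≤ k → ∀ a ∈ s, ¬ ∀ τ, (r a k).1 τ = .b (j s k) := by
    intro s k hk
    refine Classical.epsilon_spec (p := fun j => ∀ a ∈ s, ¬ ∀ τ, (r a k).1 τ = .b j) ?_
    let σ : At (k + 1) := ⟨fun _ => false, fun h => by simpa using h 0⟩
    obtain ⟨u, h1, h2⟩ := Finset.exists_mem_notMem_of_card_lt_card
      (s := s.image fun a => (r a k).1 σ) (t := Finset.univ.image F.b) (by
        rw [Finset.card_image_of_injective _ fun _ _ => F.b.inj]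
        simpa using Nat.lt_succ_of_le (Finset.card_image_le.trans hk))
    obtain ⟨i, -, rfl⟩ := Finset.mem_image.1 h1
    exact ⟨i, fun a ha e => h2 (Finset.mem_image.2 ⟨a, ha, e σ⟩)⟩
  let V : Ultrafilter (Finset M) := .of atTop
  let W := V.bind fun s => U.map (Prod.mk s)
  have hW : ∀ {p : Finset M × ℕ → Prop}, (∀ᶠ s in atTop, ∀ᶠ k in U, p (s, k)) → ∀ᶠ i in W, p i :=
    fun h => Ultrafilter.of_le _ h
  have op : ∀ (o : Op 2) (a b : M), ∀ᶠ k in U, r (Structure.funMap (L := L) o ![a, b]) k =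
      Structure.funMap (L := L) o ![r a k, r b k] := by
    intro o a b
    have := Ultraproduct.funMap_cast (L := L) (u := U) o ![r a, r b]
    have e1 : (fun i => ((![r a, r b] i : ∀ k, A (k + 1) Set.univ) : M)) = ![a, b] :=
      funext (Fin.forall_fin_two.2 ⟨hr a, hr b⟩)
    rw [e1] at this
    refine Eventually.mono (Quotient.exact
      ((hr (Structure.funMap (L := L) o ![a, b])).trans this)) fun k e => e.trans ?_
    exact congrArg (Structure.funMap (L := L) o) (funext (Fin.forall_fin_two.2 ⟨rfl, rfl⟩))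
  refine of_local W (fun i => Pt (i.2 + 1)) (fun i a => Hm (j i.1 i.2) (r a i.2))
    (fun a b hab => hW (.of_forall fun s => ?_)) (fun i a => H_weak _ _)
    (fun a b => hW (.of_forall fun s => ?_)) fun a b => hW ?_
  · have : ¬ ∀ᶠ k in U, r a k = r b k := fun e => hab ((hr a).symm.trans
      ((Quotient.sound e).trans (hr b)))
    exact (Ultrafilter.eventually_not.2 this).mono fun k e => (H_inj _).ne e
  · exact (op .imp a b).mono fun k e => by simp only [e]; exact H_imp ..
  · filter_upwards [eventually_ge_atTop {a}] with s hs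
    filter_upwards [op .comp a b, hU s.card] with k e hk
    simp only [e]
    exact H_cmp _ _ _ (hj s k hk a (hs (Finset.mem_singleton_self a)))

theorem result :
    (¬ ∃ T : L.Theory, T.Finite ∧
      ∀ (M : Type) [L.Structure M] [Nonempty M], M ⊨ T ↔ RWIS M) ∧
    ∃ (M : Type) (_ : L.Structure M), Finite M ∧ RWIS M ∧
      ∀ (X : Type) [PartialOrder X] (h : M → Set (X × X)), IsRep M X h → Infinite X := by
  constructor
  · rintro ⟨T, hT, h⟩
    let U := hyperfilter ℕ
    have h1 := (h _).2 (ultra U fun n => Nat.hyperfilter_le_atTop (eventually_ge_atTop n))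
    have h2 : ∀ᶠ k in U, ∀ φ ∈ T, A (k + 1) Set.univ ⊨ φ :=
      (eventually_all_finite hT).2 fun φ hφ =>
        (Ultraproduct.sentence_realize φ).1 (h1.realize_of_mem φ hφ)
    obtain ⟨k, hk⟩ := h2.exists
    obtain ⟨X, _, g, a, b, c, d⟩ := (h _).1 ⟨fun φ hφ => hk φ hφ⟩
    exact not_rep a b c d 0 fun _ => trivial
  · refine ⟨A 2 {1}, inferInstance, inferInstance, of_pre (h := Hm 0)
      ⟨H_inj _, H_weak _, H_imp _, fun f f' => H_cmp _ f f' fun e => ?_⟩, ?_⟩
    · obtain ⟨g, h1, h2⟩ := f.2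
      have := h2 ⟨fun _ => false, fun h => by simpa using h 0⟩
      rw [e] at this
      rcases this with rfl | ⟨⟨⟩⟩
      cases h1 0 rfl
    · rintro X _ g ⟨a, b, c, d⟩
      obtain ⟨-, -, _, -⟩ := basic a b c d 1
      by_contra hn
      rw [not_infinite_iff_finite] at hn
      obtain ⟨y, hy⟩ := (Set.toFinite (Set.univ : Set X)).exists_maximal Set.univ_nonempty
      exact no_max a b c d 1 rfl y fun x hx => hy.2 trivial hx

end Pool.Agent.Results.MP_5885b3_lc.NoAxiomNoFRP
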